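import Pool.Agent.U166.NF.Fun

set_option autoImplicit false

/-!
# The ring of real analytic functions on a connected open set
-/

namespace Pool.Agent.U166.NF

open Filter Topology

universe u

variable {E : Type u} [NormedAddCommGroup E] [NormedSpace ℝ E]

/-- the ring of the real analytic functions on the open set `W` -/
def analyticRing (W : Set E) : Subring (W → ℝ) where
  carrier := {f | ∃ g : E → ℝ, AnalyticOnNhd ℝ g W ∧ ∀ x : W, f x = g x}
  mul_mem' := by
    rintro a b ⟨g, hg, h1⟩ ⟨k, hk, h2⟩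
    refine ⟨g * k, hg.mul hk, fun x => ?_⟩
    rw [Pi.mul_apply, Pi.mul_apply, h1, h2]
  one_mem' := ⟨fun _ => 1, analyticOnNhd_const, fun _ => rfl⟩
  add_mem' := by
    rintro a b ⟨g, hg, h1⟩ ⟨k, hk, h2⟩
    refine ⟨g + k, hg.add hk, fun x => ?_⟩
    rw [Pi.add_apply, Pi.add_apply, h1, h2]
  zero_mem' := ⟨fun _ => 0, analyticOnNhd_const, fun _ => rfl⟩
  neg_mem' := by
    rintro a ⟨g, hg, h1⟩
    refine ⟨-g, hg.neg, fun x => ?_⟩
    rw [Pi.neg_apply, Pi.neg_apply, h1]

theorem const_mem_analyticRing (W : Set E) (c : ℝ) : (fun _ => c) ∈ analyticRing W :=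
  ⟨fun _ => c, analyticOnNhd_const, fun _ => rfl⟩

theorem analytic_identity {W : Set E} (hW : IsOpen W) (hW' : IsPreconnected W) :
    IdentityProperty (analyticRing W) := by
  constructor
  · rintro f ⟨g, hg, h⟩
    have h1 : f = W.restrict g := funext h
    rw [h1]
    exact hg.continuousOn.restrict
  · rintro f ⟨g, hg, h⟩ V hV ⟨x, hx⟩ h0
    obtain ⟨V', hV', rfl⟩ := isOpen_induced_iff.1 hV
    have h1 : g =ᶠ[𝓝 x.1] 0 := by
      filter_upwards [(hV'.inter hW).mem_nhds ⟨hx, x.2⟩] with y hy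
      have := h0 ⟨y, hy.2⟩ hy.1
      rw [h] at this
      exact this
    have h2 := hg.eqOn_zero_of_preconnected_of_eventuallyEq_zero hW' x.2 h1
    funext y
    rw [h]
    exact h2 y.2

end Pool.Agent.U166.NF
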