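import Pool.Agent.U166.NF.Lim
import Pool.Agent.R614.NF.Emb

set_option autoImplicit false

/-!
# Fields of quotients of continuous functions with the identity property
-/

namespace Pool.Agent.U166.NF

open Filter Topology
open Pool.Agent.W882.Nip3 Pool.Agent.TH686.NF Pool.Agent.R614.NF NNReal
open Pool.Agent.Results.MP_3554b5_lc.UnramifiedNorms

universe u

/-- `A` is a ring of continuous functions with the identity property: a function in `A` which
vanishes on a nonempty open set is zero. -/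
def IdentityProperty {X : Type u} [TopologicalSpace X] {F : Type} [NormedField F]
    (A : Subring (X → F)) : Prop :=
  (∀ f ∈ A, Continuous f) ∧
    ∀ f ∈ A, ∀ V : Set X, IsOpen V → V.Nonempty → (∀ x ∈ V, f x = 0) → f = 0

/-! ### places -/

theorem real_lp {L : Type} [Field L] (O : ValuationSubring L) (res : O →+* ℝ)
    (hloc : ∀ x, res x ≠ 0 → IsUnit x) :
    ∃ P : LocalPlace L, ∀ x, x ∈ P.ball ↔ ∃ h : x ∈ O, ‖res ⟨x, h⟩‖ ≤ 1 := by
  haveI : IsLocalHom res := ⟨fun a ha => hloc a ha.ne_zero⟩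
  refine ⟨.real { O := O, κ := IsLocalRing.ResidueField O, field := inferInstance,
                  π := IsLocalRing.residue O, surjective := IsLocalRing.residue_surjective,
                  σ := IsLocalRing.ResidueField.lift res }, fun x => ?_⟩
  constructor
  · rintro ⟨h, hx⟩
    refine ⟨h, ?_⟩
    simpa using hx
  · rintro ⟨h, hx⟩
    refine ⟨h, ?_⟩
    simpa using hx

theorem padic_lp (p : ℕ) [hp : Fact p.Prime] {L : Type} [Field L] (O : ValuationSubring L)
    (res : O →+* ℚ_[p]) (hloc : ∀ x, res x ≠ 0 → IsUnit x) :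
    ∃ P : LocalPlace L, ∀ x, x ∈ P.ball ↔ ∃ h : x ∈ O, ‖res ⟨x, h⟩‖ ≤ 1 := by
  haveI : IsLocalHom res := ⟨fun a ha => hloc a ha.ne_zero⟩
  refine ⟨.nonarch { O := O, κ := IsLocalRing.ResidueField O, field := inferInstance,
                     π := IsLocalRing.residue O, surjective := IsLocalRing.residue_surjective,
                     v := pval p (IsLocalRing.ResidueField.lift res) }
            (ofPadic_isLocal p (IsLocalRing.ResidueField.lift res)), fun x => ?_⟩
  have key : ∀ h : x ∈ O, ((pval p (IsLocalRing.ResidueField.lift res)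
      (IsLocalRing.residue O ⟨x, h⟩) : ℝ≥0) : ℝ) = ‖res ⟨x, h⟩‖ := by
    intro h
    rw [pval_apply, IsLocalRing.ResidueField.lift_residue_apply]
  constructor
  · rintro ⟨h, hx⟩
    refine ⟨h, ?_⟩
    rw [← key h]
    exact_mod_cast hx
  · rintro ⟨h, hx⟩
    refine ⟨h, ?_⟩
    rw [← key h] at hx
    exact_mod_cast hx

theorem real_sep (v w : ℝ) (h : v ≠ w) : ∃ a b : ℚ, ‖(a : ℝ) * v + b‖ ≤ 1 ∧
    1 < ‖(a : ℝ) * w + b‖ := by
  have hδ : 0 < |v - w| := abs_pos.2 (sub_ne_zero.2 h)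
  obtain ⟨n, hn⟩ := exists_nat_gt (2 / |v - w|)
  have hn0 : (0 : ℝ) < n := lt_trans (div_pos two_pos hδ) hn
  rw [div_lt_iff₀ hδ] at hn
  obtain ⟨q, hq1, hq2⟩ := exists_rat_btwn (show v - 1 / n < v + 1 / n by
    have : (0 : ℝ) < 1 / n := by positivity
    linarith)
  have h1 : |v - q| ≤ 1 / n := by
    rw [abs_le]
    constructor <;> linarith
  have h5 : (n : ℝ) * (1 / n) = 1 := by field_simp
  refine ⟨n, -(n * q), ?_, ?_⟩
  · have : (((n : ℚ) : ℝ)) * v + ((-(n * q) : ℚ) : ℝ) = n * (v - q) := by push_cast; ring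
    rw [this, Real.norm_eq_abs, abs_mul, abs_of_pos hn0, ← h5]
    gcongr
  · have : (((n : ℚ) : ℝ)) * w + ((-(n * q) : ℚ) : ℝ) = n * (w - q) := by push_cast; ring
    rw [this, Real.norm_eq_abs, abs_mul, abs_of_pos hn0]
    have h3 : |v - w| ≤ |v - q| + |w - q| := by
      have : v - w = (v - q) - (w - q) := by ring
      rw [this]
      exact abs_sub _ _
    have h4 : (n : ℝ) * |v - w| ≤ n * (1 / n) + n * |w - q| := by
      calc (n : ℝ) * |v - w| ≤ n * (|v - q| + |w - q|) := by gcongr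
        _ ≤ n * (1 / n + |w - q|) := by gcongr
        _ = _ := by ring
    linarith

theorem padic_sep (p : ℕ) [hp : Fact p.Prime] (v w : ℚ_[p]) (h : v ≠ w) :
    ∃ a b : ℚ, ‖(a : ℚ_[p]) * v + b‖ ≤ 1 ∧ 1 < ‖(a : ℚ_[p]) * w + b‖ := by
  have hδ : 0 < ‖v - w‖ := norm_pos_iff.2 (sub_ne_zero.2 h)
  have hp1 : (1 : ℝ) < p := by exact_mod_cast hp.out.one_lt
  have hp0 : (0 : ℝ) < p := by linarith
  obtain ⟨k, hk⟩ := exists_pow_lt_of_lt_one hδ (inv_lt_one_of_one_lt₀ hp1)
  obtain ⟨q, hq⟩ := Padic.rat_dense p v (show (0 : ℝ) < ((p : ℝ)⁻¹) ^ k by positivity)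
  have hpk : ∀ y : ℚ_[p], ‖((p : ℚ_[p])⁻¹) ^ k * y‖ = (p : ℝ) ^ k * ‖y‖ := by
    intro y
    rw [norm_mul, norm_pow, norm_inv, Padic.norm_p, inv_inv]
  refine ⟨((p : ℚ)⁻¹) ^ k, -(((p : ℚ)⁻¹) ^ k * q), ?_, ?_⟩
  · have : (((((p : ℚ)⁻¹) ^ k : ℚ)) : ℚ_[p]) * v + ((-(((p : ℚ)⁻¹) ^ k * q) : ℚ) : ℚ_[p]) =
        ((p : ℚ_[p])⁻¹) ^ k * (v - q) := by push_cast; ring
    rw [this, hpk]
    calc (p : ℝ) ^ k * ‖v - q‖ ≤ (p : ℝ) ^ k * ((p : ℝ)⁻¹) ^ k := by gcongr
      _ = 1 := by rw [← mul_pow, mul_inv_cancel₀ hp0.ne', one_pow]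
  · have : (((((p : ℚ)⁻¹) ^ k : ℚ)) : ℚ_[p]) * w + ((-(((p : ℚ)⁻¹) ^ k * q) : ℚ) : ℚ_[p]) =
        ((p : ℚ_[p])⁻¹) ^ k * (w - q) := by push_cast; ring
    rw [this, hpk]
    have h4 : ‖v - w‖ ≤ max ‖v - q‖ ‖w - q‖ := by
      have h6 : v - w = (v - q) + -(w - q) := by ring
      rw [h6, ← norm_neg (w - q)]
      exact Padic.nonarchimedean _ _
    have h7 : ((p : ℝ)⁻¹) ^ k < ‖w - q‖ := by
      rcases max_choice ‖v - q‖ ‖w - q‖ with h8 | h8
      · rw [h8] at h4; linarith
      · rw [h8] at h4; linarith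
    calc (1 : ℝ) = (p : ℝ) ^ k * ((p : ℝ)⁻¹) ^ k := by
          rw [← mul_pow, mul_inv_cancel₀ hp0.ne', one_pow]
      _ < (p : ℝ) ^ k * ‖w - q‖ := by gcongr

/-! ### constants -/

section const

variable {X : Type u} {U : Ultrafilter X} {F : Type} [NontriviallyNormedField F]

theorem To.natCast (n : ℕ) : To (n : Germ (U : Filter X) F) (n : F) := by
  induction n with
  | zero => rw [Nat.cast_zero, Nat.cast_zero]; exact To.zero
  | succ n ih => rw [Nat.cast_succ, Nat.cast_succ]; exact ih.add To.one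

theorem To.intCast (n : ℤ) : To (n : Germ (U : Filter X) F) (n : F) := by
  obtain ⟨m, rfl | rfl⟩ := n.eq_nat_or_neg
  · rw [Int.cast_natCast, Int.cast_natCast]; exact To.natCast m
  · rw [Int.cast_neg, Int.cast_neg, Int.cast_natCast, Int.cast_natCast]; exact (To.natCast m).neg

theorem To.ratCast [CharZero F] (q : ℚ) : To (q : Germ (U : Filter X) F) (q : F) := by
  rw [Rat.cast_def, Rat.cast_def, div_eq_mul_inv, div_eq_mul_inv]
  exact (To.intCast q.num).mul ((To.natCast q.den).inv (by exact_mod_cast q.den_ne_zero))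

end const

/-! ### the ultrafilter at a point -/

section point

variable {X : Type u} [TopologicalSpace X] {F : Type} [NontriviallyNormedField F]
  {A : Subring (X → F)}

theorem isOpen_ne (hA : IdentityProperty A) {a : X → F} (ha : a ∈ A) : IsOpen {x | a x ≠ 0} :=
  isOpen_ne_fun (hA.1 a ha) continuous_const

theorem mul_ne (hA : IdentityProperty A) {a b : X → F} (ha : a ∈ A) (hb : b ∈ A) (ha0 : a ≠ 0)
    (hb0 : b ≠ 0) : a * b ≠ 0 := by
  intro h
  apply ha0
  refine hA.2 a ha {x | b x ≠ 0} (isOpen_ne hA hb) ?_ ?_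
  · by_contra hne
    rw [Set.not_nonempty_iff_eq_empty] at hne
    apply hb0
    funext x
    by_contra hx
    have : x ∈ ({x | b x ≠ 0} : Set X) := hx
    rw [hne] at this
    exact this
  · intro x hx
    have h1 := congrFun h x
    rw [Pi.mul_apply, Pi.zero_apply] at h1
    exact (mul_eq_zero.1 h1).resolve_right hx

theorem isDomain (hA : IdentityProperty A) (p : X) : IsDomain A := by
  haveI : NoZeroDivisors A := ⟨by
    intro a b hab
    by_contra hcon
    push Not at hcon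
    refine mul_ne hA a.2 b.2 (fun h => hcon.1 (Subtype.ext h)) (fun h => hcon.2 (Subtype.ext h)) ?_
    exact congrArg Subtype.val hab⟩
  haveI : Nontrivial A := ⟨0, 1, fun h => by
    have h1 := congrFun (congrArg Subtype.val h) p
    exact zero_ne_one h1⟩
  exact NoZeroDivisors.to_isDomain A

/-- the neighbourhoods of `p`, without the zeros of finitely many nonzero functions -/
def nearFilter (hA : IdentityProperty A) (p : X) : Filter X where
  sets := {S | ∃ V ∈ 𝓝 p, ∃ a ∈ A, a ≠ 0 ∧ V ∩ {x | a x ≠ 0} ⊆ S}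
  univ_sets := ⟨Set.univ, univ_mem, 1, A.one_mem, fun h => one_ne_zero (congrFun h p),
    Set.subset_univ _⟩
  sets_of_superset := by
    rintro S T ⟨V, hV, a, ha, ha0, h⟩ hST
    exact ⟨V, hV, a, ha, ha0, h.trans hST⟩
  inter_sets := by
    rintro S T ⟨V, hV, a, ha, ha0, h⟩ ⟨W, hW, b, hb, hb0, h'⟩
    refine ⟨V ∩ W, inter_mem hV hW, a * b, A.mul_mem ha hb, mul_ne hA ha hb ha0 hb0, ?_⟩
    rintro x ⟨⟨h1, h2⟩, h3⟩
    have h4 : a x * b x ≠ 0 := h3
    exact ⟨h ⟨h1, left_ne_zero_of_mul h4⟩, h' ⟨h2, right_ne_zero_of_mul h4⟩⟩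

theorem nearFilter_neBot (hA : IdentityProperty A) (p : X) : (nearFilter hA p).NeBot := by
  rw [neBot_iff]
  intro hbot
  have h : (∅ : Set X) ∈ nearFilter hA p := by rw [hbot]; exact mem_bot
  obtain ⟨V, hV, a, ha, ha0, hVa⟩ := h
  obtain ⟨W, hWV, hW, hpW⟩ := mem_nhds_iff.1 hV
  apply ha0
  refine hA.2 a ha W hW ⟨p, hpW⟩ fun x hx => ?_
  by_contra hx0
  exact hVa ⟨hWV hx, hx0⟩

theorem exists_ultra (hA : IdentityProperty A) (p : X) :
    ∃ U : Ultrafilter X, (U : Filter X) ≤ 𝓝 p ∧ ∀ a ∈ A, a ≠ 0 → {x | a x ≠ 0} ∈ U := by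
  haveI := nearFilter_neBot hA p
  refine ⟨Ultrafilter.of (nearFilter hA p), ?_, ?_⟩
  · refine (Ultrafilter.of_le _).trans ?_
    intro V hV
    exact ⟨V, hV, 1, A.one_mem, fun h => one_ne_zero (congrFun h p), Set.inter_subset_left⟩
  · intro a ha ha0
    refine Ultrafilter.of_le _ ?_
    exact ⟨Set.univ, univ_mem, a, ha, ha0, Set.inter_subset_right⟩

theorem exists_hom (hA : IdentityProperty A) (p : X) {L : Type} [Field L]
    (ι : L →+* FractionRing A) :
    ∃ (U : Ultrafilter X) (φ : L →+* Germ (U : Filter X) F), ∀ (h : L) (f g : A),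
      ι h * algebraMap A (FractionRing A) g = algebraMap A (FractionRing A) f → g.1 p ≠ 0 →
      To (φ h) (f.1 p / g.1 p) := by
  haveI := isDomain hA p
  obtain ⟨U, hUp, hU⟩ := exists_ultra hA p
  let c : A →+* Germ (U : Filter X) F :=
    (Germ.coeRingHom (U : Filter X)).comp A.subtype
  have hc : ∀ a : A, c a = ((a.1 : X → F) : Germ (U : Filter X) F) := fun a => rfl
  have hinj : Function.Injective c := by
    rw [injective_iff_map_eq_zero]
    intro a ha
    by_contra hne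
    have h1 : a.1 ≠ 0 := fun h => hne (Subtype.ext h)
    have h2 := hU a.1 a.2 h1
    rw [hc, ← Germ.coe_zero, Germ.coe_eq] at ha
    have h3 : {x | a.1 x ≠ 0} ∩ {x | a.1 x = (0 : X → F) x} ∈ (U : Filter X) := inter_mem h2 ha
    have h4 : ({x | a.1 x ≠ 0} ∩ {x | a.1 x = (0 : X → F) x} : Set X) = ∅ := by
      ext x
      simp
    rw [h4] at h3
    exact empty_notMem (U : Filter X) h3
  let ψ : FractionRing A →+* Germ (U : Filter X) F := IsFractionRing.lift hinj
  have hψ : ∀ a : A, ψ (algebraMap A (FractionRing A) a) = c a := fun a =>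
    IsFractionRing.lift_algebraMap hinj a
  refine ⟨U, ψ.comp ι, fun h f g hfg hg => ?_⟩
  have h1 : ψ (ι h) * c g = c f := by
    rw [← hψ, ← hψ, ← map_mul, hfg]
  have hg0 : c g ≠ 0 := by
    intro h0
    rw [← map_zero c] at h0
    have := congrArg Subtype.val (hinj h0)
    apply hg
    exact congrFun this p
  have h2 : ψ (ι h) = c f * (c g)⁻¹ := by
    rw [← h1, mul_assoc, mul_inv_cancel₀ hg0, mul_one]
  have hto : ∀ a : A, To (c a) (a.1 p) := by
    intro a
    rw [hc, to_coe]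
    exact ((hA.1 a.1 a.2).tendsto p).mono_left hUp
  rw [RingHom.comp_apply, h2, div_eq_mul_inv]
  exact (hto f).mul ((hto g).inv hg)

end point

/-! ### the main argument -/

section main

variable {F : Type} [NontriviallyNormedField F]

/-- what is needed from the field `F` -/
structure Good (F : Type) [NontriviallyNormedField F] : Prop where
  proper : ProperSpace F
  char : CharZero F
  lp : ∀ (L : Type) [Field L] (O : ValuationSubring L) (res : O →+* F),
    (∀ x, res x ≠ 0 → IsUnit x) →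
    ∃ P : LocalPlace L, ∀ x, x ∈ P.ball ↔ ∃ h : x ∈ O, ‖res ⟨x, h⟩‖ ≤ 1
  sep : ∀ v w : F, v ≠ w → ∃ a b : ℚ, ‖(a : F) * v + b‖ ≤ 1 ∧ 1 < ‖(a : F) * w + b‖

theorem good_real : Good ℝ :=
  ⟨inferInstance, inferInstance, fun _ _ O res h => real_lp O res h, real_sep⟩

theorem good_padic (p : ℕ) [Fact p.Prime] : Good ℚ_[p] :=
  ⟨inferInstance, inferInstance, fun _ _ O res h => padic_lp p O res h, padic_sep p⟩

theorem few_values (hF : Good F) {L : Type} [Field L] {N : ℕ}
    (hN : ∀ P : Fin N → LocalPlace L, ∃ i j, i ≠ j ∧ (P i).ball = (P j).ball)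
    {X : Type u} [TopologicalSpace X] {A : Subring (X → F)} (hA : IdentityProperty A)
    (ι : L →+* FractionRing A) (h : L) (f g : A)
    (hfg : ι h * algebraMap A (FractionRing A) g = algebraMap A (FractionRing A) f)
    (p : Fin N → X) (hp : ∀ i, g.1 (p i) ≠ 0) :
    ¬ Function.Injective fun i => f.1 (p i) / g.1 (p i) := by
  intro hinj
  haveI := hF.proper
  haveI := hF.char
  choose U φ hφ using fun i => exists_hom hA (p i) ι
  choose P hP using fun i => hF.lp L (ring (φ i)) (res (φ i)) (isUnit_of_res (φ i))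
  obtain ⟨i, j, hij, hball⟩ := hN P
  obtain ⟨a, b, hab1, hab2⟩ := hF.sep (f.1 (p i) / g.1 (p i)) (f.1 (p j) / g.1 (p j))
    (fun heq => hij (hinj heq))
  have key : ∀ k, To (φ k ((a : L) * h + (b : L))) ((a : F) * (f.1 (p k) / g.1 (p k)) + b) := by
    intro k
    rw [map_add, map_mul, map_ratCast, map_ratCast]
    exact ((To.ratCast a).mul (hφ k h f g hfg (hp k))).add (To.ratCast b)
  have h1 : ((a : L) * h + (b : L)) ∈ (P i).ball := by
    rw [hP i]
    refine ⟨(key i).bdd, ?_⟩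
    rw [res_eq (φ i) ⟨_, (key i).bdd⟩ (key i)]
    exact hab1
  rw [hball, hP j] at h1
  obtain ⟨h2, h3⟩ := h1
  rw [res_eq (φ j) ⟨_, h2⟩ (key j)] at h3
  exact absurd h3 (not_le.2 hab2)

theorem constant (hF : Good F) {L : Type} [Field L] {N : ℕ}
    (hN : ∀ P : Fin N → LocalPlace L, ∃ i j, i ≠ j ∧ (P i).ball = (P j).ball)
    {X : Type u} [TopologicalSpace X] {A : Subring (X → F)} (hA : IdentityProperty A)
    (hc : ∀ c : F, (fun _ => c) ∈ A) (ι : L →+* FractionRing A) (h : L) :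
    ∃ c : F, ι h = algebraMap A (FractionRing A) ⟨fun _ => c, hc c⟩ := by
  classical
  obtain ⟨⟨f, g⟩, hfg⟩ := IsLocalization.surj (nonZeroDivisors A) (ι h)
  change ι h * algebraMap A (FractionRing A) g = algebraMap A (FractionRing A) f at hfg
  by_cases hX : Nonempty X
  swap
  · refine ⟨0, ?_⟩
    have h1 : ∀ a b : A, a = b := fun a b => Subtype.ext (funext fun x => (hX ⟨x⟩).elim)
    haveI : Subsingleton A := ⟨h1⟩
    have h2 : (1 : FractionRing A) = 0 := by
      rw [← map_one (algebraMap A (FractionRing A)), h1 1 0, map_zero]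
    haveI : Subsingleton (FractionRing A) := subsingleton_of_zero_eq_one h2.symm
    exact Subsingleton.elim _ _
  obtain ⟨x00⟩ := hX
  haveI := isDomain hA x00
  have hg0 : g.1 ≠ 0 := nonZeroDivisors.ne_zero g.2
  have hg0' : (g.1 : A).1 ≠ 0 := fun h0 => hg0 (Subtype.ext h0)
  obtain ⟨x0, hx0⟩ : ∃ x, (g.1 : A).1 x ≠ 0 := by
    by_contra hcon
    push Not at hcon
    exact hg0' (funext hcon)
  set G : X → F := (g.1 : A).1 with hG
  set f' : X → F := f.1 with hf'
  -- finitely many values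
  have hfin : (Set.range fun x : {x | G x ≠ 0} => f' x / G x).Finite := by
    by_contra hinf
    have hinf' : (Set.range fun x : {x | G x ≠ 0} => f' x / G x).Infinite := hinf
    let e := hinf'.natEmbedding
    have h1 : ∀ n : ℕ, ∃ x : {x | G x ≠ 0}, f' x / G x = (e n : F) := fun n => (e n).2
    choose q hq using h1
    refine few_values hF hN hA ι h f g.1 hfg (fun i : Fin N => (q i).1) (fun i => (q i).2) ?_
    intro i j hij
    have h2 : (e i : F) = (e j : F) := by
      rw [← hq i, ← hq j]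
      exact hij
    exact Fin.ext (e.injective (Subtype.ext h2))
  set S : Set F := (Set.range fun x : {x | G x ≠ 0} => f' x / G x) \ {f' x0 / G x0} with hS
  have hSc : IsClosed S := (hfin.subset Set.diff_subset).isClosed
  have hGo : IsOpen {x | G x ≠ 0} := isOpen_ne hA (g.1 : A).2
  have hcont : ContinuousOn (fun x => f' x / G x) {x | G x ≠ 0} :=
    (hA.1 _ f.2).continuousOn.div (hA.1 _ (g.1 : A).2).continuousOn fun x hx => hx
  have hW : IsOpen ({x | G x ≠ 0} ∩ (fun x => f' x / G x) ⁻¹' Sᶜ) :=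
    hcont.isOpen_inter_preimage hGo hSc.isOpen_compl
  refine ⟨f' x0 / G x0, ?_⟩
  have hz := hA.2 (f' - (fun _ => f' x0 / G x0) * G) (A.sub_mem f.2 (A.mul_mem (hc _) (g.1 : A).2))
    _ hW ⟨x0, hx0, fun h0 => h0.2 rfl⟩ (by
      rintro x ⟨hx1, hx2⟩
      have h1 : f' x / G x ∈ Set.range fun x : {x | G x ≠ 0} => f' x / G x := ⟨⟨x, hx1⟩, rfl⟩
      have h2 : f' x / G x = f' x0 / G x0 := by
        by_contra hne
        exact hx2 ⟨h1, hne⟩
      rw [Pi.sub_apply, Pi.mul_apply, ← h2, div_mul_cancel₀ _ hx1, sub_self])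
  have hz2 : f = ⟨fun _ => f' x0 / G x0, hc _⟩ * g.1 := by
    apply Subtype.ext
    exact sub_eq_zero.1 hz
  have hga : algebraMap A (FractionRing A) g.1 ≠ 0 := by
    intro h0
    exact hg0 ((IsFractionRing.injective A (FractionRing A)) (by rw [h0, map_zero]))
  apply mul_right_cancel₀ hga
  rw [hfg, ← map_mul, ← hz2]

end main

end Pool.Agent.U166.NF
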