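import Mathlib

set_option autoImplicit false

/-!
# The finite elements of a field of germs along an ultrafilter and their limits
-/

namespace Pool.Agent.U166.NF

open Filter Topology

universe u

variable {X : Type u} {U : Ultrafilter X} {F : Type} [NontriviallyNormedField F]

/-- the germ is bounded -/
def Bdd (y : Germ (U : Filter X) F) : Prop :=
  ∃ C : ℝ, y.LiftPred fun z => ‖z‖ ≤ C

/-- the germ tends to `l` -/
def To (y : Germ (U : Filter X) F) (l : F) : Prop := y.Tendsto (𝓝 l)

theorem to_coe (f : X → F) (l : F) :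
    To (U := U) (f : Germ (U : Filter X) F) l ↔ Tendsto f U (𝓝 l) := Germ.coe_tendsto

theorem bdd_coe (f : X → F) :
    Bdd (U := U) (f : Germ (U : Filter X) F) ↔ ∃ C : ℝ, ∀ᶠ t in (U : Filter X), ‖f t‖ ≤ C :=
  Iff.rfl

theorem To.unique {y : Germ (U : Filter X) F} {l m : F} (h1 : To y l) (h2 : To y m) : l = m := by
  induction y using Germ.inductionOn with
  | h f =>
    rw [to_coe] at h1 h2
    exact tendsto_nhds_unique h1 h2

theorem To.add {y z : Germ (U : Filter X) F} {l m : F} (h1 : To y l) (h2 : To z m) :
    To (y + z) (l + m) := by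
  induction y using Germ.inductionOn with
  | h f =>
    induction z using Germ.inductionOn with
    | h g =>
      rw [to_coe] at h1 h2
      rw [← Germ.coe_add, to_coe]
      exact Tendsto.add h1 h2

theorem To.mul {y z : Germ (U : Filter X) F} {l m : F} (h1 : To y l) (h2 : To z m) :
    To (y * z) (l * m) := by
  induction y using Germ.inductionOn with
  | h f =>
    induction z using Germ.inductionOn with
    | h g =>
      rw [to_coe] at h1 h2
      rw [← Germ.coe_mul, to_coe]
      exact Tendsto.mul h1 h2

theorem To.one : To (1 : Germ (U : Filter X) F) 1 := by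
  rw [← Germ.coe_one, to_coe]
  exact tendsto_const_nhds

theorem To.zero : To (0 : Germ (U : Filter X) F) 0 := by
  rw [← Germ.coe_zero, to_coe]
  exact tendsto_const_nhds

theorem To.neg {y : Germ (U : Filter X) F} {l : F} (h1 : To y l) : To (-y) (-l) := by
  induction y using Germ.inductionOn with
  | h f =>
    rw [to_coe] at h1
    rw [← Germ.coe_neg, to_coe]
    exact Tendsto.neg h1

theorem To.inv {y : Germ (U : Filter X) F} {l : F} (h1 : To y l) (hl : l ≠ 0) :
    To (y⁻¹) l⁻¹ := by
  induction y using Germ.inductionOn with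
  | h f =>
    rw [to_coe] at h1
    rw [← Germ.coe_inv, to_coe]
    exact Tendsto.inv₀ h1 hl

theorem To.bdd {y : Germ (U : Filter X) F} {l : F} (h1 : To y l) : Bdd y := by
  induction y using Germ.inductionOn with
  | h f =>
    rw [to_coe] at h1
    rw [bdd_coe]
    refine ⟨‖l‖ + 1, ?_⟩
    have h2 : Tendsto (fun t => ‖f t‖) U (𝓝 ‖l‖) := h1.norm
    exact h2.eventually (Iic_mem_nhds (by linarith))

theorem Bdd.exists_to [ProperSpace F] {y : Germ (U : Filter X) F} (h1 : Bdd y) :
    ∃ l, To y l := by
  induction y using Germ.inductionOn with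
  | h f =>
    rw [bdd_coe] at h1
    obtain ⟨C, hC⟩ := h1
    have h2 : IsCompact (Metric.closedBall (0 : F) C) := isCompact_closedBall _ _
    have h3 : ((U.map f : Ultrafilter F) : Filter F) ≤ 𝓟 (Metric.closedBall (0 : F) C) := by
      rw [le_principal_iff, Ultrafilter.coe_map, mem_map]
      filter_upwards [hC] with t ht
      change f t ∈ Metric.closedBall (0 : F) C
      rwa [mem_closedBall_zero_iff]
    obtain ⟨l, -, hl⟩ := h2.ultrafilter_le_nhds (U.map f) h3
    exact ⟨l, (to_coe f l).2 hl⟩

theorem bdd_or_inv (y : Germ (U : Filter X) F) : Bdd y ∨ Bdd y⁻¹ := by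
  induction y using Germ.inductionOn with
  | h f =>
    rcases U.em (fun t => ‖f t‖ ≤ 1) with h | h
    · exact Or.inl ⟨1, h⟩
    · right
      rw [← Germ.coe_inv, bdd_coe]
      refine ⟨1, ?_⟩
      filter_upwards [h] with t ht
      rw [not_le] at ht
      change ‖(f t)⁻¹‖ ≤ 1
      rw [norm_inv]
      exact inv_le_one_of_one_le₀ ht.le

variable {L : Type} [Field L] [ProperSpace F]

/-- the valuation ring of the elements with bounded image -/
noncomputable def ring (φ : L →+* Germ (U : Filter X) F) : ValuationSubring L where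
  carrier := {x | Bdd (φ x)}
  mul_mem' := by
    intro a b ha hb
    obtain ⟨l, hl⟩ := Bdd.exists_to ha
    obtain ⟨m, hm⟩ := Bdd.exists_to hb
    change Bdd (φ (a * b))
    rw [map_mul]
    exact (hl.mul hm).bdd
  one_mem' := by
    change Bdd (φ 1)
    rw [map_one]
    exact To.one.bdd
  add_mem' := by
    intro a b ha hb
    obtain ⟨l, hl⟩ := Bdd.exists_to ha
    obtain ⟨m, hm⟩ := Bdd.exists_to hb
    change Bdd (φ (a + b))
    rw [map_add]
    exact (hl.add hm).bdd
  zero_mem' := by
    change Bdd (φ 0)
    rw [map_zero]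
    exact To.zero.bdd
  neg_mem' := by
    intro a ha
    obtain ⟨l, hl⟩ := Bdd.exists_to ha
    change Bdd (φ (-a))
    rw [map_neg]
    exact hl.neg.bdd
  mem_or_inv_mem' := by
    intro x
    change Bdd (φ x) ∨ Bdd (φ x⁻¹)
    rw [map_inv₀]
    exact bdd_or_inv _

theorem mem_ring {φ : L →+* Germ (U : Filter X) F} {x : L} : x ∈ ring φ ↔ Bdd (φ x) := Iff.rfl

/-- the limit of an element of the valuation ring -/
noncomputable def limFun (φ : L →+* Germ (U : Filter X) F) (x : ring φ) : F :=
  Classical.choose (Bdd.exists_to (mem_ring.1 x.2))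

theorem limFun_spec (φ : L →+* Germ (U : Filter X) F) (x : ring φ) :
    To (φ x.1) (limFun φ x) :=
  Classical.choose_spec (Bdd.exists_to (mem_ring.1 x.2))

/-- the limits form a ring homomorphism -/
noncomputable def res (φ : L →+* Germ (U : Filter X) F) : ring φ →+* F where
  toFun := limFun φ
  map_one' := (limFun_spec φ 1).unique (by
    have : φ (1 : ring φ).1 = 1 := map_one φ
    rw [this]; exact To.one)
  map_mul' x y := (limFun_spec φ (x * y)).unique (by
    have : φ (x * y).1 = φ x.1 * φ y.1 := map_mul φ _ _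
    rw [this]; exact (limFun_spec φ x).mul (limFun_spec φ y))
  map_zero' := (limFun_spec φ 0).unique (by
    have : φ (0 : ring φ).1 = 0 := map_zero φ
    rw [this]; exact To.zero)
  map_add' x y := (limFun_spec φ (x + y)).unique (by
    have : φ (x + y).1 = φ x.1 + φ y.1 := map_add φ _ _
    rw [this]; exact (limFun_spec φ x).add (limFun_spec φ y))

theorem res_spec (φ : L →+* Germ (U : Filter X) F) (x : ring φ) : To (φ x.1) (res φ x) :=
  limFun_spec φ x

theorem res_eq (φ : L →+* Germ (U : Filter X) F) (x : ring φ) {l : F} (h : To (φ x.1) l) :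
    res φ x = l := (res_spec φ x).unique h

theorem isUnit_of_res (φ : L →+* Germ (U : Filter X) F) (x : ring φ) (h : res φ x ≠ 0) :
    IsUnit x := by
  have h1 := (res_spec φ x).inv h
  rw [← map_inv₀] at h1
  have hx : x.1 ≠ 0 := by
    intro h0
    apply h
    refine res_eq φ x ?_
    rw [h0, map_zero]
    exact To.zero
  refine IsUnit.of_mul_eq_one (⟨x.1⁻¹, h1.bdd⟩ : ring φ) (Subtype.ext ?_)
  exact mul_inv_cancel₀ hx

end Pool.Agent.U166.NF
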