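import Pool.Agent.U166.NF.Fun

set_option autoImplicit false

/-!
# Composition of a place with a local place of the residue field
-/

namespace Pool.Agent.U166.NF

open Pool.Agent.W882.Nip3 Pool.Agent.TH686.NF Pool.Agent.R614.NF NNReal
open Pool.Agent.Results.MP_3554b5_lc.UnramifiedNorms

variable {L : Type} [Field L] (O : ValuationSubring L)

/-- the composition of the place `L → κ` and a valuation ring of the residue field `κ` -/
def compRing {κ : Type} [Field κ] (π : O →+* κ) (hπ : Function.Surjective π)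
    (O' : ValuationSubring κ) : ValuationSubring L where
  carrier := {x | ∃ h : x ∈ O, π ⟨x, h⟩ ∈ O'}
  mul_mem' := by
    rintro a b ⟨ha, ha'⟩ ⟨hb, hb'⟩
    refine ⟨O.mul_mem _ _ ha hb, ?_⟩
    have h : π ⟨a * b, O.mul_mem _ _ ha hb⟩ = π ⟨a, ha⟩ * π ⟨b, hb⟩ := by
      rw [← map_mul]; rfl
    rw [h]
    exact O'.mul_mem _ _ ha' hb'
  one_mem' := ⟨O.one_mem, by
    have h : π ⟨1, O.one_mem⟩ = 1 := map_one π
    rw [h]; exact O'.one_mem⟩
  add_mem' := by
    rintro a b ⟨ha, ha'⟩ ⟨hb, hb'⟩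
    refine ⟨O.add_mem _ _ ha hb, ?_⟩
    have h : π ⟨a + b, O.add_mem _ _ ha hb⟩ = π ⟨a, ha⟩ + π ⟨b, hb⟩ := by
      rw [← map_add]; rfl
    rw [h]
    exact O'.add_mem _ _ ha' hb'
  zero_mem' := ⟨O.zero_mem, by
    have h : π ⟨0, O.zero_mem⟩ = 0 := map_zero π
    rw [h]; exact O'.zero_mem⟩
  neg_mem' := by
    rintro a ⟨ha, ha'⟩
    refine ⟨O.neg_mem _ ha, ?_⟩
    have h : π ⟨-a, O.neg_mem _ ha⟩ = - π ⟨a, ha⟩ := by
      rw [← map_neg]; rfl
    rw [h]
    exact O'.neg_mem _ ha'
  mem_or_inv_mem' := by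
    intro x
    rcases O.mem_or_inv_mem x with hx | hx
    · rcases O'.mem_or_inv_mem (π ⟨x, hx⟩) with h | h
      · exact Or.inl ⟨hx, h⟩
      · by_cases h0 : π ⟨x, hx⟩ = 0
        · left
          exact ⟨hx, by rw [h0]; exact O'.zero_mem⟩
        · right
          have hu := isUnit_of_ne O π hπ ⟨x, hx⟩ h0
          obtain ⟨y, hy⟩ := hu.exists_right_inv
          have hxy : x * y.1 = 1 := congrArg Subtype.val hy
          have hyx : y.1 = x⁻¹ := eq_inv_of_mul_eq_one_right hxy
          have hxi : x⁻¹ ∈ O := hyx ▸ y.2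
          refine ⟨hxi, ?_⟩
          have h1 : π ⟨x, hx⟩ * π ⟨x⁻¹, hxi⟩ = 1 := by
            rw [← map_mul, ← map_one π]
            congr 1
            apply Subtype.ext
            change x * x⁻¹ = 1
            rw [← hyx]; exact hxy
          rw [eq_inv_of_mul_eq_one_right h1]
          exact h
    · rcases O'.mem_or_inv_mem (π ⟨x⁻¹, hx⟩) with h | h
      · exact Or.inr ⟨hx, h⟩
      · by_cases h0 : π ⟨x⁻¹, hx⟩ = 0
        · right
          exact ⟨hx, by rw [h0]; exact O'.zero_mem⟩
        · left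
          have hu := isUnit_of_ne O π hπ ⟨x⁻¹, hx⟩ h0
          obtain ⟨y, hy⟩ := hu.exists_right_inv
          have hxy : x⁻¹ * y.1 = 1 := congrArg Subtype.val hy
          have hyx : y.1 = x := by rw [eq_inv_of_mul_eq_one_right hxy, inv_inv]
          have hxi : x ∈ O := hyx ▸ y.2
          refine ⟨hxi, ?_⟩
          have h1 : π ⟨x⁻¹, hx⟩ * π ⟨x, hxi⟩ = 1 := by
            rw [← map_mul, ← map_one π]
            congr 1
            apply Subtype.ext
            change x⁻¹ * x = 1
            have hx0 : x ≠ 0 := by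
              rintro rfl
              rw [inv_zero, zero_mul] at hxy
              exact zero_ne_one hxy
            exact inv_mul_cancel₀ hx0
          rw [eq_inv_of_mul_eq_one_right h1]
          exact h

/-- the map from the composed valuation ring to the valuation ring of the residue field -/
def compMap {κ : Type} [Field κ] (π : O →+* κ) (hπ : Function.Surjective π)
    (O' : ValuationSubring κ) : compRing O π hπ O' →+* O' where
  toFun x := ⟨π ⟨x.1, x.2.1⟩, x.2.2⟩
  map_one' := Subtype.ext (map_one π)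
  map_mul' x y := Subtype.ext (by
    change π _ = π _ * π _
    rw [← map_mul]; rfl)
  map_zero' := Subtype.ext (map_zero π)
  map_add' x y := Subtype.ext (by
    change π _ = π _ + π _
    rw [← map_add]; rfl)

theorem compMap_surj {κ : Type} [Field κ] (π : O →+* κ) (hπ : Function.Surjective π)
    (O' : ValuationSubring κ) : Function.Surjective (compMap O π hπ O') := by
  rintro ⟨y, hy⟩
  obtain ⟨x, rfl⟩ := hπ y
  exact ⟨⟨x.1, x.2, hy⟩, rfl⟩

theorem comp_lp {κ : Type} [Field κ] (π : O →+* κ) (hπ : Function.Surjective π)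
    (P : LocalPlace κ) :
    ∃ Q : LocalPlace L, ∀ x, x ∈ Q.ball ↔ ∃ h : x ∈ O, π ⟨x, h⟩ ∈ P.ball := by
  cases P with
  | real P =>
    refine ⟨.real { O := compRing O π hπ P.O, κ := P.κ, field := P.field,
                    π := P.π.comp (compMap O π hπ P.O),
                    surjective := P.surjective.comp (compMap_surj O π hπ P.O), σ := P.σ },
      fun x => ?_⟩
    constructor
    · rintro ⟨⟨h1, h2⟩, h3⟩
      exact ⟨h1, h2, h3⟩
    · rintro ⟨h1, h2, h3⟩
      exact ⟨⟨h1, h2⟩, h3⟩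
  | nonarch P hP =>
    refine ⟨.nonarch { O := compRing O π hπ P.O, κ := P.κ, field := P.field,
                       π := P.π.comp (compMap O π hπ P.O),
                       surjective := P.surjective.comp (compMap_surj O π hπ P.O), v := P.v } hP,
      fun x => ?_⟩
    constructor
    · rintro ⟨⟨h1, h2⟩, h3⟩
      exact ⟨h1, h2, h3⟩
    · rintro ⟨h1, h2, h3⟩
      exact ⟨⟨h1, h2⟩, h3⟩

/-- the number of local places of a residue field is bounded, too -/
theorem few_res {κ : Type} [Field κ] (π : O →+* κ) (hπ : Function.Surjective π) {N : ℕ}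
    (hN : ∀ P : Fin N → LocalPlace L, ∃ i j, i ≠ j ∧ (P i).ball = (P j).ball)
    (P : Fin N → LocalPlace κ) : ∃ i j, i ≠ j ∧ (P i).ball = (P j).ball := by
  choose Q hQ using fun i => comp_lp O π hπ (P i)
  obtain ⟨i, j, hij, h⟩ := hN Q
  refine ⟨i, j, hij, ?_⟩
  ext y
  obtain ⟨x, rfl⟩ := hπ y
  have h1 : x.1 ∈ (Q i).ball ↔ x.1 ∈ (Q j).ball := by rw [h]
  rw [hQ i, hQ j] at h1
  constructor
  · intro h2
    obtain ⟨h3, h4⟩ := h1.1 ⟨x.2, h2⟩
    exact h4
  · intro h2
    obtain ⟨h3, h4⟩ := h1.2 ⟨x.2, h2⟩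
    exact h4

end Pool.Agent.U166.NF
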